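import Mathlib
import Pool.Agent.X26.LF.Stm

set_option autoImplicit false

namespace Pool.Agent.X291.LF

open Finset Pool.Agent.X26.LF

/-- the coefficient vector of an embedding -/
noncomputable def cv {m p N : ℕ} (u : Fin m → ZMod p) (ι : Fin m ↪ Fin N) (i : Fin N) : ZMod p :=
  ∑ j, if ι j = i then u j else 0

theorem cv_sum {m p N : ℕ} (u : Fin m → ZMod p) (ι : Fin m ↪ Fin N) (x : Fin N → ZMod p) :
    ∑ i, cv u ι i * x i = ∑ j, u j * x (ι j) := by
  unfold cv
  simp only [sum_mul]
  rw [sum_comm]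
  apply sum_congr rfl
  intro j _
  simp [ite_mul]

theorem cv_apply {m p N : ℕ} (u : Fin m → ZMod p) (ι : Fin m ↪ Fin N) (j : Fin m) :
    cv u ι (ι j) = u j := by
  unfold cv
  simp [ι.injective.eq_iff]

theorem cv_zero {m p N : ℕ} (u : Fin m → ZMod p) (ι : Fin m ↪ Fin N) (i : Fin N)
    (h : ∀ j, ι j ≠ i) : cv u ι i = 0 := by
  unfold cv
  apply sum_eq_zero
  intro j _
  rw [if_neg (h j)]

/-- proportional coefficient vectors have the same support -/
theorem same_range {m p N : ℕ} [Fact p.Prime] (u : Fin m → ZMod p) (hu : ∀ i, u i ≠ 0)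
    (ι ι' : Fin m ↪ Fin N) (h : ∃ l, cv u ι' = fun i => l * cv u ι i) :
    ∀ j, ∃ k, ι' j = ι k := by
  intro j
  obtain ⟨l, hl⟩ := h
  by_contra hcon
  push Not at hcon
  have h1 := congrFun hl (ι' j)
  rw [cv_apply] at h1
  rw [cv_zero u ι (ι' j) (fun k hk => hcon k hk.symm), mul_zero] at h1
  exact hu j h1

open Classical in
/-- the number of embeddings with the same range is at most `m!` -/
theorem count_range {m N : ℕ} (ι : Fin m ↪ Fin N) :
    (univ.filter fun ι' : Fin m ↪ Fin N => ∀ j, ∃ k, ι' j = ι k).card ≤ m.factorial := by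
  have h1 : (univ : Finset (Equiv.Perm (Fin m))).card = m.factorial := by
    rw [card_univ, Fintype.card_perm, Fintype.card_fin]
  rw [← h1]
  apply card_le_card_of_surjOn (fun σ : Equiv.Perm (Fin m) => σ.toEmbedding.trans ι)
  intro ι' hι'
  have h2 : ∀ j, ∃ k, ι' j = ι k := by simpa using hι'
  choose f hf using h2
  have hinj : Function.Injective f := by
    intro a b hab
    apply ι'.injective
    rw [hf a, hf b, hab]
  refine ⟨Equiv.ofBijective f (Finite.injective_iff_bijective.1 hinj), by simp, ?_⟩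
  ext j
  simp [hf j]

/-- number of embeddings with value `s` -/
noncomputable def Xc {m p N : ℕ} (u : Fin m → ZMod p) (s : ZMod p) (x : Fin N → ZMod p) : ℕ :=
  ∑ ι : Fin m ↪ Fin N, if ∑ i, cv u ι i * x i = s then 1 else 0

theorem t_SM (hC : S_CNT) : S_SM := by
  classical
  intro m p N hp u s hm hu hT
  have hpp : 0 < p := hp.out.pos
  have hN : NeZero p := ⟨hpp.ne'⟩
  set T : ℕ := N.descFactorial m with hTdef
  have hTcard : Fintype.card (Fin m ↪ Fin N) = T := by
    rw [Fintype.card_embedding_eq, Fintype.card_fin, Fintype.card_fin]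
  have hTpos : 0 < T := lt_of_lt_of_le (by
    have := Nat.factorial_pos m
    positivity) hT
  have hcne : ∀ ι : Fin m ↪ Fin N, cv u ι ≠ 0 := by
    intro ι h
    have h1 := congrFun h (ι ⟨0, hm⟩)
    rw [cv_apply] at h1
    exact hu _ h1
  -- first moment
  have h1 : p * ∑ x : Fin N → ZMod p, Xc u s x = T * p ^ N := by
    unfold Xc
    rw [sum_comm, mul_sum]
    have : ∀ ι ∈ (univ : Finset (Fin m ↪ Fin N)), p * (∑ x : Fin N → ZMod p,
        if ∑ i, cv u ι i * x i = s then 1 else 0) = p ^ N := by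
      intro ι _
      rw [← card_filter]
      exact (hC p N (cv u ι) 0 s 0 (hcne ι)).1
    rw [sum_congr rfl this, sum_const, card_univ, hTcard, smul_eq_mul]
  -- second moment
  have hpair : ∀ ι ι' : Fin m ↪ Fin N, p ^ 2 * (univ.filter fun x : Fin N → ZMod p =>
      ∑ i, cv u ι i * x i = s ∧ ∑ i, cv u ι' i * x i = s).card ≤
      p ^ N + (if ∀ j, ∃ k, ι' j = ι k then p * p ^ N else 0) := by
    intro ι ι'
    by_cases hl : ∃ l, cv u ι' = fun i => l * cv u ι i
    · rw [if_pos (same_range u hu ι ι' hl)]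
      have h2 := (hC p N (cv u ι) 0 s 0 (hcne ι)).1
      have h3 : (univ.filter fun x : Fin N → ZMod p =>
          ∑ i, cv u ι i * x i = s ∧ ∑ i, cv u ι' i * x i = s).card ≤
          (univ.filter fun x : Fin N → ZMod p => ∑ i, cv u ι i * x i = s).card := by
        apply card_le_card
        intro x hx
        simp only [mem_filter, mem_univ, true_and] at hx ⊢
        exact hx.1
      calc p ^ 2 * _ ≤ p ^ 2 * (univ.filter fun x : Fin N → ZMod p =>
            ∑ i, cv u ι i * x i = s).card := Nat.mul_le_mul_left _ h3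
        _ = p * (p * (univ.filter fun x : Fin N → ZMod p =>
            ∑ i, cv u ι i * x i = s).card) := by ring
        _ = p * p ^ N := by rw [h2]
        _ ≤ _ := Nat.le_add_left _ _
    · have h2 := (hC p N (cv u ι) (cv u ι') s s (hcne ι)).2 hl
      rw [h2]
      exact Nat.le_add_right _ _
  have h2 : p ^ 2 * ∑ x : Fin N → ZMod p, (Xc u s x) ^ 2 ≤
      T * (T * p ^ N + m.factorial * (p * p ^ N)) := by
    have e1 : ∀ x : Fin N → ZMod p, (Xc u s x) ^ 2 = ∑ ι : Fin m ↪ Fin N, ∑ ι' : Fin m ↪ Fin N,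
        if (∑ i, cv u ι i * x i = s ∧ ∑ i, cv u ι' i * x i = s) then 1 else 0 := by
      intro x
      unfold Xc
      rw [pow_two, sum_mul_sum]
      apply sum_congr rfl
      intro ι _
      apply sum_congr rfl
      intro ι' _
      by_cases a : ∑ i, cv u ι i * x i = s <;> by_cases b : ∑ i, cv u ι' i * x i = s <;>
        simp [a, b]
    simp only [e1]
    rw [sum_comm]
    have e2 : ∀ ι ∈ (univ : Finset (Fin m ↪ Fin N)), (∑ x : Fin N → ZMod p,
        ∑ ι' : Fin m ↪ Fin N, if (∑ i, cv u ι i * x i = s ∧ ∑ i, cv u ι' i * x i = s) then 1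
          else 0) = ∑ ι' : Fin m ↪ Fin N, (univ.filter fun x : Fin N → ZMod p =>
      ∑ i, cv u ι i * x i = s ∧ ∑ i, cv u ι' i * x i = s).card := by
      intro ι _
      rw [sum_comm]
      apply sum_congr rfl
      intro ι' _
      rw [card_filter]
    rw [sum_congr rfl e2, mul_sum]
    have e3 : ∀ ι ∈ (univ : Finset (Fin m ↪ Fin N)), p ^ 2 * ∑ ι' : Fin m ↪ Fin N,
        (univ.filter fun x : Fin N → ZMod p =>
          ∑ i, cv u ι i * x i = s ∧ ∑ i, cv u ι' i * x i = s).card ≤
        T * p ^ N + m.factorial * (p * p ^ N) := by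
      intro ι _
      rw [mul_sum]
      calc _ ≤ ∑ ι' : Fin m ↪ Fin N, (p ^ N + (if ∀ j, ∃ k, ι' j = ι k then p * p ^ N else 0)) :=
            sum_le_sum fun ι' _ => hpair ι ι'
        _ = T * p ^ N + (univ.filter fun ι' : Fin m ↪ Fin N => ∀ j, ∃ k, ι' j = ι k).card *
            (p * p ^ N) := by
            rw [sum_add_distrib, sum_const, card_univ, hTcard, smul_eq_mul, ← sum_filter,
              sum_const, smul_eq_mul]
        _ ≤ _ := by
            apply Nat.add_le_add_left
            apply Nat.mul_le_mul_right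
            have := count_range ι
            convert this
    calc _ ≤ ∑ ι : Fin m ↪ Fin N, (T * p ^ N + m.factorial * (p * p ^ N)) := sum_le_sum e3
      _ = _ := by rw [sum_const, card_univ, hTcard, smul_eq_mul]
  -- Cauchy-Schwarz
  set W : Finset (Fin N → ZMod p) := univ.filter fun x => Xc u s x ≠ 0 with hW
  set Z : Finset (Fin N → ZMod p) := univ.filter fun x => ¬ Xc u s x ≠ 0 with hZ
  have hWZ : W.card + Z.card = p ^ N := by
    rw [hW, hZ, card_filter_add_card_filter_not, card_univ, Fintype.card_fun, ZMod.card,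
      Fintype.card_fin]
  have hS1 : ∑ x : Fin N → ZMod p, Xc u s x = ∑ x ∈ W, Xc u s x := by
    rw [hW, sum_filter]
    apply sum_congr rfl
    intro x _
    split_ifs with h
    · rfl
    · simpa using h
  have hS2 : ∑ x ∈ W, (Xc u s x) ^ 2 ≤ ∑ x : Fin N → ZMod p, (Xc u s x) ^ 2 :=
    sum_le_sum_of_subset (subset_univ _)
  have hCS : (∑ x ∈ W, Xc u s x) ^ 2 ≤ W.card * ∑ x ∈ W, (Xc u s x) ^ 2 :=
    sq_sum_le_card_mul_sum_sq
  have h3 : (T * p ^ N) ^ 2 ≤ W.card * (T * (T * p ^ N + m.factorial * (p * p ^ N))) := by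
    calc (T * p ^ N) ^ 2 = (p * ∑ x : Fin N → ZMod p, Xc u s x) ^ 2 := by rw [h1]
      _ = p ^ 2 * (∑ x ∈ W, Xc u s x) ^ 2 := by rw [hS1]; ring
      _ ≤ p ^ 2 * (W.card * ∑ x ∈ W, (Xc u s x) ^ 2) := Nat.mul_le_mul_left _ hCS
      _ ≤ p ^ 2 * (W.card * ∑ x : Fin N → ZMod p, (Xc u s x) ^ 2) :=
          Nat.mul_le_mul_left _ (Nat.mul_le_mul_left _ hS2)
      _ = W.card * (p ^ 2 * ∑ x : Fin N → ZMod p, (Xc u s x) ^ 2) := by ring
      _ ≤ _ := Nat.mul_le_mul_left _ h2
  have hpN : 0 < p ^ N := by positivity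
  have h4 : T * p ^ N ≤ W.card * (T + m.factorial * p) := by
    have h5 : (T * p ^ N) * (T * p ^ N) ≤ (W.card * (T + m.factorial * p)) * (T * p ^ N) := by
      calc (T * p ^ N) * (T * p ^ N) = (T * p ^ N) ^ 2 := by ring
        _ ≤ _ := h3
        _ = _ := by ring
    exact Nat.le_of_mul_le_mul_right h5 (by positivity)
  have h6 : 8 * Z.card ≤ p ^ N := by
    have h7 : Z.card * (T + m.factorial * p) ≤ m.factorial * p * p ^ N := by
      have h8 : (W.card + Z.card) * (T + m.factorial * p) = p ^ N * (T + m.factorial * p) := by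
        rw [hWZ]
      nlinarith
    have h9 : (8 * Z.card) * T ≤ p ^ N * T := by
      calc (8 * Z.card) * T ≤ 8 * (Z.card * (T + m.factorial * p)) := by
            rw [mul_assoc]
            exact Nat.mul_le_mul_left _ (Nat.mul_le_mul_left _ (Nat.le_add_right _ _))
        _ ≤ 8 * (m.factorial * p * p ^ N) := Nat.mul_le_mul_left _ h7
        _ = (8 * m.factorial * p) * p ^ N := by ring
        _ ≤ T * p ^ N := Nat.mul_le_mul_right _ hT
        _ = _ := by ring
    exact Nat.le_of_mul_le_mul_right h9 hTpos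
  refine le_trans (Nat.mul_le_mul_left _ (le_of_eq ?_)) h6
  congr 1
  ext x
  simp only [hZ, mem_filter, mem_univ, true_and, not_not]
  constructor
  · intro h
    push Not at h
    unfold Xc
    apply sum_eq_zero
    intro ι _
    rw [cv_sum, if_neg (h ι)]
  · intro h hex
    obtain ⟨ι, hι⟩ := hex
    unfold Xc at h
    have := (sum_eq_zero_iff.1 h) ι (mem_univ _)
    rw [cv_sum, if_pos hι] at this
    exact one_ne_zero this

end Pool.Agent.X291.LF
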